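import Mathlib

namespace Pool.Agent.Results.MP_349597_co.PrismGap

open SimpleGraph Finset

/-- `G` has a partition of its vertex set into exactly `k` (nonempty) cliques. -/
def CliquePartition {V : Type} [Fintype V] [DecidableEq V] (G : SimpleGraph V) (k : ℕ) : Prop :=
  ∃ P : Finpartition (Finset.univ : Finset V),
    (∀ s ∈ P.parts, G.IsClique (s : Set V)) ∧ P.parts.card = k

/-- The clique cover number. -/
noncomputable def theta {V : Type} [Fintype V] [DecidableEq V] (G : SimpleGraph V) : ℕ :=
  sInf {k | CliquePartition G k}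

/-- Dominating sets. -/
def Dominating {V : Type} (G : SimpleGraph V) (D : Finset V) : Prop :=
  ∀ v, v ∉ D → ∃ u ∈ D, G.Adj u v

/-- Eternal families of `k`-element dominating sets (one guard moves per attack). -/
def Eternal {V : Type} [DecidableEq V] (G : SimpleGraph V) (k : ℕ)
    (F : Set (Finset V)) : Prop :=
  F.Nonempty ∧ (∀ D ∈ F, D.card = k ∧ Dominating G D) ∧
    ∀ D ∈ F, ∀ v, v ∉ D → ∃ u ∈ D, G.Adj u v ∧ insert v (D.erase u) ∈ F

/-- The eternal domination number. -/
noncomputable def gammaInf {V : Type} [DecidableEq V] (G : SimpleGraph V) : ℕ :=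
  sInf {k | 1 ≤ k ∧ ∃ F : Set (Finset V), Eternal G k F}

section general


variable {V : Type} [Fintype V] [DecidableEq V]

lemma cp_of_fun {ι : Type} [Fintype ι] [DecidableEq ι] (G : SimpleGraph V) (f : V → ι)
    (hs : Function.Surjective f) (hc : ∀ x y, x ≠ y → f x = f y → G.Adj x y) :
    CliquePartition G (Fintype.card ι) := by
  classical
  let parts : Finset (Finset V) := univ.image (fun i : ι => univ.filter (fun v => f v = i))
  have hinj : Function.Injective (fun i : ι => univ.filter (fun v : V => f v = i)) := by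
    intro i j hij
    obtain ⟨v, hv⟩ := hs i
    have : v ∈ univ.filter (fun v : V => f v = i) := by simp [hv]
    simp only at hij
    rw [hij] at this
    simp at this
    rw [← hv, this]
  refine ⟨Finpartition.ofExistsUnique parts (fun p _ => subset_univ p) ?_ ?_, ?_, ?_⟩
  · intro a _
    refine ⟨univ.filter (fun v => f v = f a), ⟨?_, ?_⟩, ?_⟩
    · exact mem_image_of_mem _ (mem_univ _)
    · simp
    · rintro t ⟨ht, hat⟩
      obtain ⟨i, _, rfl⟩ := mem_image.1 ht
      simp at hat
      rw [hat]
  · intro h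
    obtain ⟨i, _, hi⟩ := mem_image.1 h
    obtain ⟨v, hv⟩ := hs i
    have : v ∈ univ.filter (fun v : V => f v = i) := by simp [hv]
    rw [hi] at this
    simp at this
  · intro s hs'
    change s ∈ parts at hs'
    obtain ⟨i, _, rfl⟩ := mem_image.1 hs'
    intro x hx y hy hxy
    simp at hx hy
    exact hc x y hxy (by rw [hx, hy])
  · change parts.card = _
    rw [card_image_of_injective _ hinj, card_univ]

lemma fun_of_cp {G : SimpleGraph V} {k : ℕ} (h : CliquePartition G k) :
    ∃ f : V → Fin k, Function.Surjective f ∧ ∀ x y, x ≠ y → f x = f y → G.Adj x y := by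
  obtain ⟨P, hP, hk⟩ := h
  have e : P.parts ≃ Fin k := P.parts.equivFinOfCardEq hk
  refine ⟨fun v => e ⟨P.part v, P.part_mem.2 (mem_univ v)⟩, ?_, ?_⟩
  · intro i
    obtain ⟨v, hv⟩ := P.nonempty_of_mem_parts (e.symm i).2
    refine ⟨v, ?_⟩
    have : P.part v = (e.symm i : Finset V) := P.part_eq_of_mem (e.symm i).2 hv
    have h2 : (⟨P.part v, P.part_mem.2 (mem_univ v)⟩ : P.parts) = e.symm i := Subtype.ext this
    simp only [h2, Equiv.apply_symm_apply]
  · intro x y hxy h
    have h1 : P.part x = P.part y := by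
      have := e.injective h
      exact congrArg Subtype.val this
    have hx : x ∈ P.part x := P.mem_part (mem_univ x)
    have hy : y ∈ P.part x := by rw [h1]; exact P.mem_part (mem_univ y)
    exact hP _ (P.part_mem.2 (mem_univ x)) hx hy hxy

lemma theta_le_of_cp {G : SimpleGraph V} {k : ℕ} (h : CliquePartition G k) : theta G ≤ k :=
  Nat.sInf_le h

lemma theta_le_of_fun {ι : Type} [Fintype ι] (G : SimpleGraph V) (f : V → ι)
    (hc : ∀ x y, x ≠ y → f x = f y → G.Adj x y) : theta G ≤ Fintype.card ι := by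
  classical
  have h := cp_of_fun G (fun v => (⟨f v, ⟨v, rfl⟩⟩ : Set.range f))
    (by rintro ⟨_, v, rfl⟩; exact ⟨v, rfl⟩)
    (by intro x y hxy h; exact hc x y hxy (congrArg Subtype.val h))
  exact (theta_le_of_cp h).trans (Fintype.card_subtype_le _)

lemma theta_cp (G : SimpleGraph V) : CliquePartition G (theta G) := by
  classical
  have : ({k | CliquePartition G k} : Set ℕ).Nonempty :=
    ⟨_, cp_of_fun G (id : V → V) Function.surjective_id (fun x y hxy h => absurd h hxy)⟩
  exact Nat.sInf_mem this

lemma theta_fun (G : SimpleGraph V) :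
    ∃ f : V → Fin (theta G), Function.Surjective f ∧
      ∀ x y, x ≠ y → f x = f y → G.Adj x y := fun_of_cp (theta_cp G)

lemma le_of_eternal {G : SimpleGraph V} {k : ℕ} {F : Set (Finset V)} (hF : Eternal G k F)
    {I : Finset V} (hI : G.IsIndepSet (I : Set V)) : I.card ≤ k := by
  classical
  obtain ⟨⟨D0, hD0⟩, hcard, hresp⟩ := hF
  -- pick a member meeting `I` in as many vertices as possible
  have key : ∀ n : ℕ, n ≤ I.card → ∃ D ∈ F, n ≤ (D ∩ I).card := by
    intro n
    induction n with
    | zero => intro _; exact ⟨D0, hD0, Nat.zero_le _⟩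
    | succ n ih =>
      intro hn
      obtain ⟨D, hD, hDn⟩ := ih (by omega)
      by_cases hsub : I ⊆ D
      · refine ⟨D, hD, ?_⟩
        rw [inter_eq_right.2 hsub]
        exact hn
      · obtain ⟨v, hvI, hvD⟩ := not_subset.1 hsub
        obtain ⟨u, huD, huv, hmem⟩ := hresp D hD v hvD
        refine ⟨_, hmem, ?_⟩
        have huI : u ∉ I := by
          intro huI
          exact hI huI hvI (G.ne_of_adj huv) huv
        have : insert v (D ∩ I) ⊆ (insert v (D.erase u)) ∩ I := by
          intro x hx
          rw [mem_insert] at hx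
          rcases hx with rfl | hx
          · simp [hvI]
          · rw [mem_inter] at hx
            have : x ≠ u := by rintro rfl; exact huI hx.2
            simp [hx.1, hx.2, this]
        have h1 := card_le_card this
        rw [card_insert_of_notMem (by simp [hvD])] at h1
        omega
  obtain ⟨D, hD, h⟩ := key _ le_rfl
  calc I.card ≤ (D ∩ I).card := h
    _ ≤ D.card := card_le_card inter_subset_left
    _ = k := (hcard D hD).1

lemma eternal_of_fun {k : ℕ} (G : SimpleGraph V) (f : V → Fin k)
    (hs : Function.Surjective f) (hc : ∀ x y, x ≠ y → f x = f y → G.Adj x y) :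
    ∃ F : Set (Finset V), Eternal G k F := by
  classical
  have resp : ∀ c : Fin k → V, (∀ i, f (c i) = i) → ∀ v, v ∉ univ.image c →
      ∃ u ∈ univ.image c, G.Adj u v ∧
        ∃ c' : Fin k → V, (∀ i, f (c' i) = i) ∧ insert v ((univ.image c).erase u) = univ.image c' := by
    intro c hcc v hv
    have hne : c (f v) ≠ v := by
      intro h
      exact hv (mem_image.2 ⟨f v, mem_univ _, h⟩)
    refine ⟨c (f v), mem_image_of_mem _ (mem_univ _), hc _ _ hne (hcc _), ?_⟩
    refine ⟨Function.update c (f v) v, ?_, ?_⟩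
    · intro i
      by_cases h : i = f v
      · subst h; simp
      · rw [Function.update_of_ne h]; exact hcc i
    · ext x
      simp only [mem_insert, mem_erase, mem_image, mem_univ, true_and]
      constructor
      · rintro (rfl | ⟨h1, i, rfl⟩)
        · exact ⟨f x, by simp⟩
        · refine ⟨i, ?_⟩
          rw [Function.update_of_ne]
          rintro rfl
          exact h1 rfl
      · rintro ⟨i, rfl⟩
        by_cases h : i = f v
        · subst h; left; simp
        · right
          rw [Function.update_of_ne h]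
          refine ⟨?_, i, rfl⟩
          intro h2
          have := congrArg f h2
          rw [hcc, hcc] at this
          exact h this
  refine ⟨{D | ∃ c : Fin k → V, (∀ i, f (c i) = i) ∧ D = univ.image c}, ?_, ?_, ?_⟩
  · choose c hcc using hs
    exact ⟨_, c, hcc, rfl⟩
  · rintro D ⟨c, hcc, rfl⟩
    constructor
    · rw [card_image_of_injective]
      · simp
      · intro i j hij
        rw [← hcc i, ← hcc j, hij]
    · intro v hv
      obtain ⟨u, hu, huv, _⟩ := resp c hcc v hv
      exact ⟨u, hu, huv⟩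
  · rintro D ⟨c, hcc, rfl⟩ v hv
    obtain ⟨u, hu, huv, c', hc', h⟩ := resp c hcc v hv
    exact ⟨u, hu, huv, c', hc', h⟩

lemma gammaInf_le {G : SimpleGraph V} {k : ℕ} (h1 : 1 ≤ k) {F : Set (Finset V)}
    (hF : Eternal G k F) : gammaInf G ≤ k := Nat.sInf_le ⟨h1, F, hF⟩

lemma gammaInf_spec {G : SimpleGraph V} {k : ℕ} (h1 : 1 ≤ k) {F : Set (Finset V)}
    (hF : Eternal G k F) : ∃ F' : Set (Finset V), Eternal G (gammaInf G) F' := by
  have hne : ({k | 1 ≤ k ∧ ∃ F : Set (Finset V), Eternal G k F} : Set ℕ).Nonempty :=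
    ⟨k, h1, F, hF⟩
  exact (Nat.sInf_mem hne).2

end general

section construction

variable {W : Type} [Fintype W] [DecidableEq W] {t : ℕ}

/-- The graph obtained from `F` by adding, for each label `i`, a new vertex adjacent to all
vertices with label `i`. -/
def addTips (F : SimpleGraph W) (f : W → Fin t) : SimpleGraph (W ⊕ Fin t) where
  Adj x y := match x, y with
    | Sum.inl a, Sum.inl b => F.Adj a b
    | Sum.inl a, Sum.inr i => f a = i
    | Sum.inr i, Sum.inl a => f a = i
    | Sum.inr _, Sum.inr _ => False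
  symm := ⟨by
    intro x y h
    match x, y, h with
    | Sum.inl a, Sum.inl b, h => exact SimpleGraph.Adj.symm (G := F) h
    | Sum.inl a, Sum.inr i, h => exact h
    | Sum.inr i, Sum.inl a, h => exact h⟩
  loopless := ⟨by
    intro x h
    match x, h with
    | Sum.inl a, h => exact F.loopless.irrefl a h⟩


lemma addTips_clique (F : SimpleGraph W) (f : W → Fin t)
    (hc : ∀ x y, x ≠ y → f x = f y → F.Adj x y) :
    ∀ x y : W ⊕ Fin t, x ≠ y → Sum.elim f id x = Sum.elim f id y → (addTips F f).Adj x y := by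
  rintro (a | i) (b | j) hne h
  · exact hc a b (fun h => hne (by rw [h])) h
  · exact h
  · exact h.symm
  · exact absurd (congrArg Sum.inr h) hne

lemma theta_addTips_le (F : SimpleGraph W) (f : W → Fin t)
    (hc : ∀ x y, x ≠ y → f x = f y → F.Adj x y) : theta (addTips F f) ≤ t := by
  have := theta_le_of_fun (addTips F f) (Sum.elim f id) (addTips_clique F f hc)
  simpa using this

/-- the set of all added vertices -/
def tips (W : Type) [DecidableEq W] (t : ℕ) : Finset (W ⊕ Fin t) :=
  univ.map ⟨Sum.inr, Sum.inr_injective⟩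

lemma tips_card : (tips W t).card = t := by simp [tips]

lemma tips_indep (F : SimpleGraph W) (f : W → Fin t) :
    (addTips F f).IsIndepSet ((tips W t : Finset (W ⊕ Fin t)) : Set (W ⊕ Fin t)) := by
  intro x hx y hy _ h
  simp only [tips, coe_map, Function.Embedding.coeFn_mk, Set.mem_image, mem_coe, mem_univ,
    true_and] at hx hy
  obtain ⟨i, rfl⟩ := hx
  obtain ⟨j, rfl⟩ := hy
  exact h

lemma indep_le_labels {V : Type} {ι : Type} [Fintype ι] (G : SimpleGraph V) (g : V → ι)
    (hc : ∀ x y, x ≠ y → g x = g y → G.Adj x y) {I : Finset V}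
    (hI : G.IsIndepSet (I : Set V)) : I.card ≤ Fintype.card ι := by
  classical
  rw [← card_univ]
  refine card_le_card_of_injOn g (fun _ _ => mem_coe.2 (mem_univ _)) ?_
  intro x hx y hy h
  by_contra hne
  exact hI hx hy hne (hc x y hne h)

lemma theta_addTips (F : SimpleGraph W) (f : W → Fin t)
    (hc : ∀ x y, x ≠ y → f x = f y → F.Adj x y) : theta (addTips F f) = t := by
  refine le_antisymm (theta_addTips_le F f hc) ?_
  obtain ⟨g, _, hg⟩ := theta_fun (addTips F f)
  have := indep_le_labels (addTips F f) g hg (tips_indep F f)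
  rw [tips_card] at this
  simpa using this

lemma indepNum_addTips (F : SimpleGraph W) (f : W → Fin t)
    (hc : ∀ x y, x ≠ y → f x = f y → F.Adj x y) : (addTips F f).indepNum = t := by
  refine le_antisymm ?_ ?_
  · obtain ⟨I, hI⟩ := (addTips F f).exists_isNIndepSet_indepNum
    have := indep_le_labels (addTips F f) (Sum.elim f id) (addTips_clique F f hc) hI.isIndepSet
    rw [hI.card_eq] at this
    simpa using this
  · have := (tips_indep F f).card_le_indepNum
    rwa [tips_card] at this

lemma gammaInf_addTips (ht : 1 ≤ t) (F : SimpleGraph W) (f : W → Fin t)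
    (hc : ∀ x y, x ≠ y → f x = f y → F.Adj x y) : gammaInf (addTips F f) = t := by
  obtain ⟨A, hA⟩ := eternal_of_fun (addTips F f) (Sum.elim f id)
    (fun i => ⟨Sum.inr i, rfl⟩) (addTips_clique F f hc)
  refine le_antisymm (gammaInf_le ht hA) ?_
  obtain ⟨B, hB⟩ := gammaInf_spec ht hA
  have := le_of_eternal hB (tips_indep F f)
  rwa [tips_card] at this

/-- The prism over a graph. -/
abbrev prism {V : Type} (G : SimpleGraph V) : SimpleGraph (V × Fin 2) :=
  G □ (⊤ : SimpleGraph (Fin 2))

lemma prism_adj {V : Type} (G : SimpleGraph V) (x y : V × Fin 2) :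
    (prism G).Adj x y ↔ (G.Adj x.1 y.1 ∧ x.2 = y.2) ∨ (x.2 ≠ y.2 ∧ x.1 = y.1) := by
  simp [SimpleGraph.boxProd_adj]

lemma theta_prism_le {V : Type} [Fintype V] [DecidableEq V] (G : SimpleGraph V) :
    theta (prism G) ≤ 2 * theta G := by
  obtain ⟨g, _, hg⟩ := theta_fun G
  have := theta_le_of_fun (prism G) (fun x => (g x.1, x.2)) (by
    rintro ⟨x, i⟩ ⟨y, j⟩ hne h
    simp only [Prod.mk.injEq] at h
    obtain ⟨h1, h2⟩ := h
    subst h2
    rw [prism_adj]
    left
    exact ⟨hg x y (fun h => hne (by rw [h])) h1, rfl⟩)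
  simpa [mul_comm] using this

lemma le_theta_prism (F : SimpleGraph W) (f : W → Fin t)
    (hc : ∀ x y, x ≠ y → f x = f y → F.Adj x y) (hopt : t ≤ theta F) :
    2 * t ≤ theta (prism (addTips F f)) := by
  classical
  have hex : ∃ g : (W ⊕ Fin t) × Fin 2 → Fin (theta (prism (addTips F f))),
      ∀ x y, x ≠ y → g x = g y → (prism (addTips F f)).Adj x y := by
    obtain ⟨g, _, hg⟩ := theta_fun (prism (addTips F f))
    exact ⟨g, hg⟩
  revert hex
  generalize theta (prism (addTips F f)) = m
  rintro ⟨g, hg⟩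
  -- labels of the tips
  let A0 : Finset (Fin m) := univ.image (fun i : Fin t => g (Sum.inr i, 0))
  let A1 : Finset (Fin m) := univ.image (fun i : Fin t => g (Sum.inr i, 1))
  let I : Finset (Fin t) := univ.filter (fun i => g (Sum.inr i, 0) = g (Sum.inr i, 1))
  let B : Finset (Fin m) := (univ.filter (fun w : W => f w ∈ I)).image (fun w => g (Sum.inl w, 1))
  have nadj : ∀ x y, x ≠ y → ¬ (prism (addTips F f)).Adj x y → g x ≠ g y := by
    intro x y hne hna h
    exact hna (hg x y hne h)
  have inj0 : Function.Injective (fun i : Fin t => g (Sum.inr i, 0)) := by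
    intro i j hij
    by_contra hne
    refine nadj (Sum.inr i, 0) (Sum.inr j, 0) (by simpa using hne) ?_ hij
    rw [prism_adj]
    simp [addTips]
  have inj1 : Function.Injective (fun i : Fin t => g (Sum.inr i, 1)) := by
    intro i j hij
    by_contra hne
    refine nadj (Sum.inr i, 1) (Sum.inr j, 1) (by simpa using hne) ?_ hij
    rw [prism_adj]
    simp [addTips]
  have cross : ∀ i j : Fin t, g (Sum.inr i, 0) = g (Sum.inr j, 1) → i = j := by
    intro i j hij
    by_contra hne
    refine nadj (Sum.inr i, 0) (Sum.inr j, 1) (by simp) ?_ hij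
    rw [prism_adj]
    simp [addTips, hne]
  have cA0 : A0.card = t := by
    rw [card_image_of_injective _ inj0, card_univ, Fintype.card_fin]
  have cA1 : A1.card = t := by
    rw [card_image_of_injective _ inj1, card_univ, Fintype.card_fin]
  have cI : (A0 ∩ A1).card ≤ I.card := by
    have : A0 ∩ A1 ⊆ I.image (fun i => g (Sum.inr i, 0)) := by
      intro x hx
      rw [mem_inter] at hx
      obtain ⟨i, _, hi⟩ := mem_image.1 hx.1
      obtain ⟨j, _, hj⟩ := mem_image.1 hx.2
      have hij := cross i j (by rw [hi, hj])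
      subst hij
      refine mem_image.2 ⟨i, ?_, hi⟩
      simp only [I, mem_filter, mem_univ, true_and]
      rw [hi, hj]
    exact (card_le_card this).trans card_image_le
  have hBA : Disjoint B (A0 ∪ A1) := by
    rw [Finset.disjoint_left]
    intro x hxB hx
    obtain ⟨w, hw, hwx⟩ := mem_image.1 hxB
    simp only [I, mem_filter, mem_univ, true_and] at hw
    rw [mem_union] at hx
    rcases hx with hx | hx
    · obtain ⟨i, _, hi⟩ := mem_image.1 hx
      refine nadj (Sum.inr i, 0) (Sum.inl w, 1) (by simp) ?_ (by rw [hi, hwx])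
      rw [prism_adj]
      simp
    · obtain ⟨i, _, hi⟩ := mem_image.1 hx
      by_cases hwi : f w = i
      · subst hwi
        refine nadj (Sum.inr (f w), 0) (Sum.inl w, 1) (by simp) ?_ (by rw [hw, hi, hwx])
        rw [prism_adj]
        simp
      · refine nadj (Sum.inr i, 1) (Sum.inl w, 1) (by simp) ?_ (by rw [hi, hwx])
        rw [prism_adj]
        simp [addTips, hwi]
  have hB : I.card ≤ B.card := by
    -- relabel `F`
    have hlab : theta F ≤ Fintype.card (B ⊕ (Iᶜ : Finset (Fin t))) := by
      refine theta_le_of_fun F (fun w => if h : f w ∈ I then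
          Sum.inl ⟨g (Sum.inl w, 1), mem_image.2 ⟨w, by simp only [mem_filter, mem_univ, true_and]; exact h, rfl⟩⟩
        else Sum.inr ⟨f w, mem_compl.2 h⟩) ?_
      intro x y hne h
      by_cases hx : f x ∈ I
      · by_cases hy : f y ∈ I
        · simp only [hx, hy, dite_true, Sum.inl.injEq, Subtype.mk.injEq] at h
          have := hg _ _ (by simpa using hne) h
          rw [prism_adj] at this
          simpa [addTips] using this
        · simp [hx, hy] at h
      · by_cases hy : f y ∈ I
        · simp [hx, hy] at h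
        · simp only [hx, hy, dite_false, Sum.inr.injEq, Subtype.mk.injEq] at h
          exact hc x y hne h
    rw [Fintype.card_sum, Fintype.card_coe, Fintype.card_coe, card_compl, Fintype.card_fin] at hlab
    have : I.card ≤ t := by simpa using card_le_univ I
    omega
  have hU : (A0 ∪ A1).card + (A0 ∩ A1).card = A0.card + A1.card := card_union_add_card_inter _ _
  have hall : (B ∪ (A0 ∪ A1)).card ≤ m := by simpa using card_le_univ (B ∪ (A0 ∪ A1))
  rw [card_union_of_disjoint hBA] at hall
  omega

/-- three-element sets containing a non-adjacent pair -/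
def Good (F : SimpleGraph W) (S : Finset W) : Prop :=
  S.card = 3 ∧ ∃ a ∈ S, ∃ b ∈ S, a ≠ b ∧ ¬ F.Adj a b

lemma good_resp (F : SimpleGraph W)
    (hα : ∀ a b c : W, a ≠ b → a ≠ c → b ≠ c → F.Adj a b ∨ F.Adj a c ∨ F.Adj b c)
    (S : Finset W) (hS : Good F S) (w : W) (hw : w ∉ S) :
    ∃ u ∈ S, F.Adj u w ∧ Good F (insert w (S.erase u)) := by
  obtain ⟨hcard, a, ha, b, hb, hab, hnab⟩ := hS
  obtain ⟨c, hcS, hca, hcb⟩ : ∃ c ∈ S, c ≠ a ∧ c ≠ b := by
    by_contra hcon
    push Not at hcon
    have : S ⊆ {a, b} := by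
      intro x hx
      simp only [mem_insert, mem_singleton]
      by_cases h : x = a
      · exact Or.inl h
      · exact Or.inr (hcon x hx h)
    have := (card_le_card this).trans card_le_two
    omega
  have hcard' : ∀ u ∈ S, (insert w (S.erase u)).card = 3 := by
    intro u hu
    rw [card_insert_of_notMem (by simp [hw]), card_erase_of_mem hu, hcard]
  have hwa : a ≠ w := by rintro rfl; exact hw ha
  have hwb : b ≠ w := by rintro rfl; exact hw hb
  have hwc : c ≠ w := by rintro rfl; exact hw hcS
  by_cases h1 : F.Adj a w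
  · by_cases h2 : F.Adj b w
    · by_cases h3 : F.Adj c w
      · refine ⟨c, hcS, h3, hcard' c hcS, a, ?_, b, ?_, hab, hnab⟩
        · simp [ha, hca.symm]
        · simp [hb, hcb.symm]
      · refine ⟨a, ha, h1, hcard' a ha, c, ?_, w, ?_, hwc, h3⟩
        · simp [hcS, hca]
        · simp
    · refine ⟨a, ha, h1, hcard' a ha, b, ?_, w, ?_, hwb, h2⟩
      · simp [hb, hab.symm]
      · simp
  · have h2 : F.Adj b w := by
      rcases hα a b w hab hwa hwb with h | h | h
      · exact absurd h hnab
      · exact absurd h h1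
      · exact h
    refine ⟨b, hb, h2, hcard' b hb, a, ?_, w, ?_, hwa, h1⟩
    · simp [ha, hab]
    · simp

/-- a configuration of guards on the prism -/
def build (S : Fin 2 → Finset W) (c : Fin t → Fin 2) : Finset ((W ⊕ Fin t) × Fin 2) :=
  ((S 0).image (fun w => (Sum.inl w, 0)) ∪ (S 1).image (fun w => (Sum.inl w, 1))) ∪
    univ.image (fun i => (Sum.inr i, c i))

lemma mem_build_inl (S : Fin 2 → Finset W) (c : Fin t → Fin 2) (w : W) (j : Fin 2) :
    (Sum.inl w, j) ∈ build S c ↔ w ∈ S j := by
  rcases (show j = 0 ∨ j = 1 by omega) with h | h <;> subst h <;> simp [build]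

lemma mem_build_inr (S : Fin 2 → Finset W) (c : Fin t → Fin 2) (i : Fin t) (j : Fin 2) :
    (Sum.inr i, j) ∈ build S c ↔ c i = j := by
  rcases (show j = 0 ∨ j = 1 by omega) with h | h <;> subst h <;> simp [build]

lemma card_build (S : Fin 2 → Finset W) (c : Fin t → Fin 2) :
    (build S c).card = (S 0).card + (S 1).card + t := by
  rw [build, card_union_of_disjoint, card_union_of_disjoint, card_image_of_injective,
    card_image_of_injective, card_image_of_injective, card_univ, Fintype.card_fin]
  · intro x y h; simp at h; exact h.1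
  · intro x y h; simpa using h
  · intro x y h; simpa using h
  · rw [Finset.disjoint_left]
    intro x hx hy
    simp only [mem_image] at hx hy
    obtain ⟨a, _, rfl⟩ := hx
    obtain ⟨b, _, hb⟩ := hy
    simp at hb
  · rw [Finset.disjoint_left]
    intro x hx hy
    simp only [mem_union, mem_image] at hx hy
    obtain ⟨b, _, rfl⟩ := hy
    rcases hx with ⟨a, _, ha⟩ | ⟨a, _, ha⟩ <;> simp at ha

lemma eternal_prism (F : SimpleGraph W) (f : W → Fin t)
    (hα : ∀ a b c : W, a ≠ b → a ≠ c → b ≠ c → F.Adj a b ∨ F.Adj a c ∨ F.Adj b c)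
    (hne : ∃ S : Finset W, Good F S) :
    ∃ A : Set (Finset ((W ⊕ Fin t) × Fin 2)), Eternal (prism (addTips F f)) (t + 6) A := by
  classical
  have resp : ∀ (S : Fin 2 → Finset W) (c : Fin t → Fin 2), (∀ j, Good F (S j)) →
      ∀ v, v ∉ build S c → ∃ u ∈ build S c, (prism (addTips F f)).Adj u v ∧
        ∃ (S' : Fin 2 → Finset W) (c' : Fin t → Fin 2), (∀ j, Good F (S' j)) ∧
          insert v ((build S c).erase u) = build S' c' := by
    rintro S c hS ⟨w | i, j⟩ hv
    · rw [mem_build_inl] at hv
      obtain ⟨u, hu, huw, hgood⟩ := good_resp F hα (S j) (hS j) w hv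
      refine ⟨(Sum.inl u, j), (mem_build_inl _ _ _ _).2 hu, ?_,
        Function.update S j (insert w ((S j).erase u)), c, ?_, ?_⟩
      · rw [prism_adj]; left; exact ⟨huw, rfl⟩
      · intro k
        by_cases h : k = j
        · subst h; simpa using hgood
        · rw [Function.update_of_ne h]; exact hS k
      · ext ⟨x | x, k⟩
        · rw [mem_build_inl]
          by_cases h : k = j
          · subst h
            simp [mem_build_inl]
          · rw [Function.update_of_ne h]
            simp [mem_build_inl, h]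
        · rw [mem_build_inr]
          simp [mem_build_inr]
    · rw [mem_build_inr] at hv
      refine ⟨(Sum.inr i, c i), (mem_build_inr _ _ _ _).2 rfl, ?_, S, Function.update c i j, hS, ?_⟩
      · rw [prism_adj]; right; exact ⟨hv, rfl⟩
      · ext ⟨x | x, k⟩
        · rw [mem_build_inl]
          simp [mem_build_inl]
        · rw [mem_build_inr]
          by_cases h : x = i
          · subst h
            simp only [mem_insert, Prod.mk.injEq, true_and, mem_erase, ne_eq, mem_build_inr,
              Function.update_self]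
            constructor
            · rintro (rfl | ⟨h1, h2⟩)
              · rfl
              · exact absurd h2.symm h1
            · rintro rfl
              left; rfl
          · rw [Function.update_of_ne h]
            simp [mem_build_inr, h]
  obtain ⟨S0, hS0⟩ := hne
  refine ⟨{D | ∃ (S : Fin 2 → Finset W) (c : Fin t → Fin 2), (∀ j, Good F (S j)) ∧
    D = build S c}, ⟨_, fun _ => S0, fun _ => 0, fun _ => hS0, rfl⟩, ?_, ?_⟩
  · rintro D ⟨S, c, hS, rfl⟩
    constructor
    · rw [card_build, (hS 0).1, (hS 1).1]; omega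
    · intro v hv
      obtain ⟨u, hu, huv, _⟩ := resp S c hS v hv
      exact ⟨u, hu, huv⟩
  · rintro D ⟨S, c, hS, rfl⟩ v hv
    obtain ⟨u, hu, huv, S', c', hS', h⟩ := resp S c hS v hv
    exact ⟨u, hu, huv, S', c', hS', h⟩

end construction

section shift

/-- pairs `i < j` -/
abbrev Pairs (N : ℕ) : Type := {p : Fin N × Fin N // p.1 < p.2}

/-- complement of the shift graph -/
def coshift (N : ℕ) : SimpleGraph (Pairs N) where
  Adj p q := p ≠ q ∧ p.1.2 ≠ q.1.1 ∧ q.1.2 ≠ p.1.1
  symm := ⟨fun _ _ h => ⟨h.1.symm, h.2.2, h.2.1⟩⟩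
  loopless := ⟨fun _ h => h.1 rfl⟩

lemma coshift_alpha (N : ℕ) (a b c : Pairs N) (hab : a ≠ b) (hac : a ≠ c) (hbc : b ≠ c) :
    (coshift N).Adj a b ∨ (coshift N).Adj a c ∨ (coshift N).Adj b c := by
  obtain ⟨⟨a1, a2⟩, ha⟩ := a
  obtain ⟨⟨b1, b2⟩, hb⟩ := b
  obtain ⟨⟨c1, c2⟩, hc⟩ := c
  simp only [coshift, ne_eq, Subtype.mk.injEq, Prod.mk.injEq] at *
  simp only at ha hb hc
  by_contra hcon
  push Not at hcon
  obtain ⟨h1, h2, h3⟩ := hcon
  have e1 : a2 = b1 ∨ b2 = a1 := by
    by_contra h
    push Not at h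
    exact h.2 (h1 (by simpa using hab) h.1)
  have e2 : a2 = c1 ∨ c2 = a1 := by
    by_contra h
    push Not at h
    exact h.2 (h2 (by simpa using hac) h.1)
  have e3 : b2 = c1 ∨ c2 = b1 := by
    by_contra h
    push Not at h
    exact h.2 (h3 (by simpa using hbc) h.1)
  omega

lemma coshift_labels (n k : ℕ) (f : Pairs (2 ^ n) → Fin k)
    (hf : ∀ x y, x ≠ y → f x = f y → (coshift (2 ^ n)).Adj x y) : n ≤ k := by
  classical
  let A : Fin (2 ^ n) → Finset (Fin k) := fun i =>
    univ.filter (fun l => ∃ (j : Fin (2 ^ n)) (h : i < j), f ⟨(i, j), h⟩ = l)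
  have hlt : ∀ i j : Fin (2 ^ n), i < j → A i ≠ A j := by
    intro i j hij h
    have h1 : f ⟨(i, j), hij⟩ ∈ A i := by
      simp only [A, mem_filter, mem_univ, true_and]
      exact ⟨j, hij, rfl⟩
    rw [h] at h1
    simp only [A, mem_filter, mem_univ, true_and] at h1
    obtain ⟨l, hjl, hl⟩ := h1
    have hne : (⟨(j, l), hjl⟩ : Pairs (2 ^ n)) ≠ ⟨(i, j), hij⟩ := by
      intro h
      have := congrArg (fun p : Pairs (2 ^ n) => p.1.1) h
      simp only at this
      omega
    have := hf _ _ hne hl
    exact this.2.2 rfl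
  have hinj : Function.Injective A := by
    intro i j h
    rcases lt_trichotomy i j with h1 | h1 | h1
    · exact absurd h (hlt i j h1)
    · exact h1
    · exact absurd h.symm (hlt j i h1)
  have := Fintype.card_le_of_injective A hinj
  simp only [Fintype.card_fin, Fintype.card_finset] at this
  exact (Nat.pow_le_pow_iff_right (by norm_num)).1 this

lemma coshift_good (n : ℕ) (hn : 2 ≤ n) : ∃ S : Finset (Pairs (2 ^ n)), Good (coshift (2 ^ n)) S := by
  have h4 : 2 ^ 2 ≤ 2 ^ n := Nat.pow_le_pow_right (by norm_num) hn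
  let x0 : Fin (2 ^ n) := ⟨0, by omega⟩
  let x1 : Fin (2 ^ n) := ⟨1, by omega⟩
  let x2 : Fin (2 ^ n) := ⟨2, by omega⟩
  let p : Pairs (2 ^ n) := ⟨(x0, x1), Fin.mk_lt_mk.2 (by omega)⟩
  let q : Pairs (2 ^ n) := ⟨(x1, x2), Fin.mk_lt_mk.2 (by omega)⟩
  let r : Pairs (2 ^ n) := ⟨(x0, x2), Fin.mk_lt_mk.2 (by omega)⟩
  have hpq : p ≠ q := by simp [p, q, x0, x1, x2]
  have hpr : p ≠ r := by simp [p, r, x0, x1, x2]
  have hqr : q ≠ r := by simp [q, r, x0, x1, x2]
  refine ⟨{p, q, r}, ?_, p, by simp, q, by simp, hpq, ?_⟩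
  · rw [card_eq_three]
    exact ⟨p, q, r, hpq, hpr, hqr, rfl⟩
  · intro h
    exact h.2.1 rfl

end shift

/-- For every `N` there is a finite graph `G` with clique cover number at least `N`, with
`alpha(G) = gammaInf(G) = theta(G)`, such that the prism over `G` has clique cover number exactly
`2 theta(G)` but eternal domination number at most `theta(G) + 6`. -/
theorem result : ∀ N : ℕ, ∃ (V : Type) (_ : Fintype V) (_ : DecidableEq V) (G : SimpleGraph V),
    N ≤ theta G ∧ G.indepNum = theta G ∧ gammaInf G = theta G ∧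
    theta (G □ (⊤ : SimpleGraph (Fin 2))) = 2 * theta G ∧
    gammaInf (G □ (⊤ : SimpleGraph (Fin 2))) ≤ theta G + 6 := by
  intro N
  obtain ⟨t, ht, f, hf⟩ : ∃ t, t = theta (coshift (2 ^ (N + 2))) ∧
      ∃ f : Pairs (2 ^ (N + 2)) → Fin t,
        ∀ x y, x ≠ y → f x = f y → (coshift (2 ^ (N + 2))).Adj x y := by
    obtain ⟨f, _, hf⟩ := theta_fun (coshift (2 ^ (N + 2)))
    exact ⟨_, rfl, f, hf⟩
  have hN : N + 2 ≤ t := coshift_labels (N + 2) t f hf
  have hθ := theta_addTips (coshift (2 ^ (N + 2))) f hf
  refine ⟨Pairs (2 ^ (N + 2)) ⊕ Fin t, inferInstance, inferInstance,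
    addTips (coshift (2 ^ (N + 2))) f, ?_, ?_, ?_, ?_, ?_⟩
  · rw [hθ]; omega
  · rw [hθ]; exact indepNum_addTips _ f hf
  · rw [hθ]; exact gammaInf_addTips (by omega) _ f hf
  · refine le_antisymm (theta_prism_le _) ?_
    rw [hθ]
    exact le_theta_prism _ f hf ht.le
  · rw [hθ]
    obtain ⟨A, hA⟩ := eternal_prism (coshift (2 ^ (N + 2))) f (coshift_alpha _)
      (coshift_good _ (by omega))
    exact gammaInf_le (by omega) hA

end Pool.Agent.Results.MP_349597_co.PrismGap
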